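import Pool.Agent.H76.PS.Defs3

/-!
# Project PS, jobs LG and EV
-/

set_option autoImplicit false
set_option linter.unusedSectionVars false

namespace Pool.Agent.K7.H91.PS

open Pool.Agent.Y715.Gi (QB KK GK)
open Pool.Agent.Y715.Nr Pool.Agent.W237.RK
open Pool.Agent.Z384 (II DD DDs Fld)
open Pool.Agent.H76.PS
open Matrix
open scoped Pointwise

/-! ## The 2-adic integers -/

lemma tz_zero (c : ℤ_[2]) : PadicInt.toZMod c = 0 ↔ (2 : ℤ_[2]) ∣ c := by
  rw [← RingHom.mem_ker, PadicInt.ker_toZMod, IsLocalRing.mem_maximalIdeal, PadicInt.mem_nonunits,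
    PadicInt.norm_lt_one_iff_dvd]
  norm_num

lemma dvd_iff (k : ℕ) (c : ℤ_[2]) : (2 : ℤ_[2]) ^ k ∣ c ↔ ‖c‖ ≤ (2 : ℝ) ^ (-(k : ℤ)) := by
  have := PadicInt.norm_le_pow_iff_mem_span_pow (p := 2) c k
  rw [Ideal.mem_span_singleton] at this
  norm_num at this
  rw [← this]
  norm_num

lemma isOpen_dvd (k : ℕ) : IsOpen {c : ℤ_[2] | (2 : ℤ_[2]) ^ k ∣ c} := by
  have h : {c : ℤ_[2] | (2 : ℤ_[2]) ^ k ∣ c} = Metric.ball 0 ((2 : ℝ) ^ (-(k : ℤ) + 1)) := by
    ext c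
    rw [Set.mem_ofPred_eq, dvd_iff, Metric.mem_ball, dist_zero_right]
    have := PadicInt.norm_le_pow_iff_norm_lt_pow_add_one (p := 2) c (-(k : ℤ))
    push_cast at this
    exact this
  rw [h]
  exact Metric.isOpen_ball

lemma eq_zero_of_dvd {c : ℤ_[2]} (h : ∀ k : ℕ, (2 : ℤ_[2]) ^ k ∣ c) : c = 0 := by
  by_contra hc
  have h0 : 0 < ‖c‖ := norm_pos_iff.2 hc
  obtain ⟨k, hk⟩ := exists_pow_lt_of_lt_one h0 (show (1 / 2 : ℝ) < 1 by norm_num)
  have h1 := (dvd_iff k c).1 (h k)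
  rw [_root_.zpow_neg, zpow_natCast, ← inv_pow] at h1
  rw [one_div] at hk
  exact absurd (lt_of_le_of_lt h1 hk) (lt_irrefl _)

/-- division by `2 ^ m` -/
noncomputable def dv (m : ℕ) (c : ℤ_[2]) : ℤ_[2] :=
  open Classical in if h : (2 : ℤ_[2]) ^ m ∣ c then h.choose else 0

lemma dv_spec {m : ℕ} {c : ℤ_[2]} (h : (2 : ℤ_[2]) ^ m ∣ c) : c = 2 ^ m * dv m c := by
  unfold dv
  rw [dif_pos h]
  exact h.choose_spec

lemma two_pow_ne (m : ℕ) : (2 : ℤ_[2]) ^ m ≠ 0 := pow_ne_zero _ (by norm_num)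

lemma dv_lc {X : Type} [TopologicalSpace X] {g : X → ℤ_[2]} (hg : Continuous g) {m : ℕ}
    (h : ∀ x, (2 : ℤ_[2]) ^ m ∣ g x) :
    IsLocallyConstant fun x => PadicInt.toZMod (dv m (g x)) := by
  rw [IsLocallyConstant.iff_eventually_eq]
  intro x
  have h1 : {y : X | (2 : ℤ_[2]) ^ (m + 1) ∣ g y - g x} ∈ nhds x := by
    have h2 : IsOpen ((fun y => g y - g x) ⁻¹' {c : ℤ_[2] | (2 : ℤ_[2]) ^ (m + 1) ∣ c}) :=
      (isOpen_dvd (m + 1)).preimage (hg.sub continuous_const)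
    refine h2.mem_nhds ?_
    show (2 : ℤ_[2]) ^ (m + 1) ∣ g x - g x
    rw [sub_self]
    exact dvd_zero _
  filter_upwards [h1] with y hy
  obtain ⟨t, ht⟩ := hy
  have h3 : (2 : ℤ_[2]) ^ m * (dv m (g y) - dv m (g x)) = 2 ^ m * (2 * t) := by
    rw [mul_sub, ← dv_spec (h y), ← dv_spec (h x), ht, pow_succ]
    ring
  have h4 := mul_left_cancel₀ (two_pow_ne m) h3
  rw [← sub_eq_zero, ← map_sub, h4, tz_zero]
  exact dvd_mul_right _ _

/-! ## The group -/

variable {s : QB}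

lemma te_top : TE (⊤ : Subgroup (GK s)) where
  isOpen := isOpen_univ
  normal := inferInstance
  index := ⟨0, by rw [Subgroup.index_top, pow_zero]⟩
  unramified := fun _ _ _ _ _ _ => trivial

lemma te_inf {N M : Subgroup (GK s)} (hN : TE N) (hM : TE M) : TE (N ⊓ M) := by
  have h1 := hN.normal
  have h2 := hM.normal
  obtain ⟨a, ha⟩ := hN.index
  obtain ⟨b, hb⟩ := hM.index
  refine ⟨hN.isOpen.inter hM.isOpen, inferInstance, ?_, fun p _ ι hp σ hσ =>
    ⟨hN.unramified p ι hp σ hσ, hM.unramified p ι hp σ hσ⟩⟩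
  have h3 : (N ⊓ M).index ∣ N.index * M.index := by
    have h4 := Subgroup.relIndex_mul_index (H := N ⊓ M) (K := N) inf_le_left
    rw [← h4, mul_comm]
    refine mul_dvd_mul_left _ ?_
    rw [Subgroup.inf_relIndex_left]
    exact Subgroup.relIndex_dvd_index_of_normal M N
  rw [ha, hb, ← pow_add] at h3
  obtain ⟨c, -, hc⟩ := (Nat.dvd_prime_pow Nat.prime_two).1 h3
  exact ⟨c, hc⟩

lemma exists_te_sub {O : Set (GK s)} (hO : IsOpen O) (hN : ∀ x ∈ Nf s, x ∈ O) :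
    ∃ N : Subgroup (GK s), TE N ∧ ∀ x ∈ N, x ∈ O := by
  have hK : IsCompact (Oᶜ) := hO.isClosed_compl.isCompact
  have : Nonempty {N : Subgroup (GK s) // TE N} := ⟨⟨⊤, te_top⟩⟩
  have key := hK.elim_directed_family_closed
    (fun N : {N : Subgroup (GK s) // TE N} => ((N : Subgroup (GK s)) : Set (GK s)))
    (fun N => Subgroup.isClosed_of_isOpen _ N.2.isOpen) ?_ ?_
  · obtain ⟨N, hN'⟩ := key
    refine ⟨N, N.2, fun x hx => ?_⟩
    by_contra h
    have : x ∈ Oᶜ ∩ ((N : Subgroup (GK s)) : Set (GK s)) := ⟨h, hx⟩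
    rw [hN'] at this
    exact this
  · ext x
    simp only [Set.mem_inter_iff, Set.mem_compl_iff, Set.mem_iInter, Set.mem_empty_iff_false,
      iff_false, not_and]
    intro hx hall
    refine hx (hN x ?_)
    rw [Nf, Subgroup.mem_sInf]
    intro N hN
    exact hall ⟨N, hN⟩
  · intro N M
    exact ⟨⟨N ⊓ M, te_inf N.2 M.2⟩, fun x hx => hx.1, fun x hx => hx.2⟩

lemma isClosed_Nf : IsClosed (Nf s : Set (GK s)) := by
  rw [Nf, Subgroup.coe_sInf]
  exact isClosed_biInter fun N hN => Subgroup.isClosed_of_isOpen _ hN.isOpen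

/-- density and compactness -/
lemma surjD {D : Subgroup (GK s)} (hD : IsCompact (D : Set (GK s)))
    (hd : ∀ U : Subgroup (GK s), IsOpen (U : Set (GK s)) → Nf s ≤ U →
      ∀ g : GK s, ∃ δ ∈ D, δ⁻¹ * g ∈ U) (g : GK s) : ∃ δ ∈ D, δ⁻¹ * g ∈ Nf s := by
  by_contra hcon
  push Not at hcon
  have : Nonempty {N : Subgroup (GK s) // TE N} := ⟨⟨⊤, te_top⟩⟩
  have key := hD.elim_directed_family_closed
    (fun N : {N : Subgroup (GK s) // TE N} => {δ : GK s | δ⁻¹ * g ∈ (N : Subgroup (GK s))})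
    (fun N => (Subgroup.isClosed_of_isOpen _ N.2.isOpen).preimage
      (continuous_inv.mul continuous_const)) ?_ ?_
  · obtain ⟨N, hN'⟩ := key
    obtain ⟨δ, hδ, h⟩ := hd N N.2.isOpen (sInf_le N.2) g
    have : δ ∈ (D : Set (GK s)) ∩ {δ : GK s | δ⁻¹ * g ∈ (N : Subgroup (GK s))} := ⟨hδ, h⟩
    rw [hN'] at this
    exact this
  · ext x
    simp only [Set.mem_inter_iff, Set.mem_iInter, Set.mem_empty_iff_false, iff_false, not_and]
    intro hx hall
    refine hcon x hx ?_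
    rw [Nf, Subgroup.mem_sInf]
    intro N hN
    exact hall ⟨N, hN⟩
  · intro N M
    exact ⟨⟨N ⊓ M, te_inf N.2 M.2⟩, fun x hx => hx.1, fun x hx => hx.2⟩

lemma tz_chi {χ : GK s → ℤ_[2]} (hχ : IsChar χ) (x : GK s) : PadicInt.toZMod (χ x) = 1 := by
  have h1 : χ x * χ x⁻¹ = 1 := by rw [← hχ.mul, mul_inv_cancel, hχ.one]
  have h2 : PadicInt.toZMod (χ x) ≠ 0 := by
    intro h
    have h3 := congrArg PadicInt.toZMod h1
    rw [map_mul, h, zero_mul, map_one] at h3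
    exact zero_ne_one h3
  have h4 : ∀ a : ZMod 2, a ≠ 0 → a = 1 := by decide
  exact h4 _ h2

section cocycle

variable {A : Type} [CommRing A] [TopologicalSpace A] [Algebra ℤ_[2] A] {r : ℕ}
  (b : Module.Basis (Fin r) ℤ_[2] A) (hb : ∀ e, Continuous fun a : A => b.repr a e)
  {χ : GK s → ℤ_[2]} (hχ : IsChar χ) {z : GK s → GK s → A} (hz : ZA χ z) (hz1 : z 1 1 = 0)

include hχ hz hz1 in
lemma z_one_left (w : GK s) : z 1 w = 0 := by
  have h := hz.coc 1 1 w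
  rw [hχ.one, one_smul, one_mul, one_mul, hz1] at h
  simpa using h

include hχ hz hz1 in
lemma z_one_right (x : GK s) : z x 1 = 0 := by
  have h := hz.coc x 1 1
  rw [mul_one, mul_one, hz1, smul_zero] at h
  simpa using h

include hb in
lemma isOpen_coord (m : ℕ) : IsOpen {a : A | ∀ e, (2 : ℤ_[2]) ^ m ∣ b.repr a e} := by
  have h : {a : A | ∀ e, (2 : ℤ_[2]) ^ m ∣ b.repr a e} =
      ⋂ e, (fun a : A => b.repr a e) ⁻¹' {c : ℤ_[2] | (2 : ℤ_[2]) ^ m ∣ c} := by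
    ext a
    simp
  rw [h]
  exact isOpen_iInter_of_finite fun e => (isOpen_dvd m).preimage (hb e)

include hb hχ hz hz1 in
/-- step 1: the function vanishes on the elements of the kernel -/
lemma step1 {D : Subgroup (GK s)} (hD : IsCompact (D : Set (GK s)))
    (hext : ∀ U : Subgroup (GK s), IsOpen (U : Set (GK s)) → Nf s ≤ U →
      ∀ φ ∈ HS (U ⊓ D : Subgroup (GK s)), ∃ φ' ∈ HS U,
        (∀ σ : U, (σ : GK s) ∈ Nf s → φ' σ = 0) ∧
        ∀ (σ : GK s) (h : σ ∈ U) (h' : σ ∈ U ⊓ D), φ' ⟨σ, h⟩ = φ ⟨σ, h'⟩)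
    {f : D → A} (hf : Continuous f)
    (hfz : ∀ δ δ' : D, z δ δ' = f δ + χ δ • f δ' - f (δ * δ')) (m : ℕ) :
    ∀ δ : D, (δ : GK s) ∈ Nf s → ∀ e, (2 : ℤ_[2]) ^ m ∣ b.repr (f δ) e := by
  have hDc : CompactSpace D := isCompact_iff_compactSpace.1 hD
  induction m with
  | zero => intro δ _ e; rw [pow_zero]; exact one_dvd _
  | succ m ih =>
    -- the open sets
    have hO1 : IsOpen {x : GK s | ∀ w, z x w ∈ {a : A | ∀ e, (2 : ℤ_[2]) ^ (m + 1) ∣ b.repr a e}} := by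
      have h1 : IsClosed ((fun v : GK s × GK s => z v.1 v.2) ⁻¹'
          {a : A | ∀ e, (2 : ℤ_[2]) ^ (m + 1) ∣ b.repr a e}ᶜ) :=
        (isOpen_coord b hb (m + 1)).isClosed_compl.preimage hz.cont
      have h2 := isClosedMap_fst_of_compactSpace _ h1
      rw [← isClosed_compl_iff]
      convert h2 using 1
      ext x
      simp only [Set.mem_compl_iff, Set.mem_ofPred_eq, Set.mem_image, Set.mem_preimage,
        Prod.exists, exists_and_right, exists_eq_right]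
      push Not
      rfl
    have hO2 : IsOpen {x : GK s | ∀ h : x ∈ D, f ⟨x, h⟩ ∈
        {a : A | ∀ e, (2 : ℤ_[2]) ^ m ∣ b.repr a e}} := by
      have h1 : IsClosed (f ⁻¹' {a : A | ∀ e, (2 : ℤ_[2]) ^ m ∣ b.repr a e}ᶜ) :=
        (isOpen_coord b hb m).isClosed_compl.preimage hf
      have h2 : IsClosed ((fun δ : D => (δ : GK s)) ''
          (f ⁻¹' {a : A | ∀ e, (2 : ℤ_[2]) ^ m ∣ b.repr a e}ᶜ)) :=
        (h1.isCompact.image continuous_subtype_val).isClosed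
      rw [← isClosed_compl_iff]
      convert h2 using 1
      ext x
      constructor
      · intro hx
        have hx' : ¬ ∀ h : x ∈ D, f ⟨x, h⟩ ∈ {a : A | ∀ e, (2 : ℤ_[2]) ^ m ∣ b.repr a e} := hx
        push Not at hx'
        obtain ⟨h, h'⟩ := hx'
        exact ⟨⟨x, h⟩, h', rfl⟩
      · rintro ⟨⟨y, hy⟩, h', rfl⟩ h
        exact h' (h hy)
    obtain ⟨U, hU, hUO⟩ := exists_te_sub (hO1.inter hO2) (by
      intro x hx
      refine ⟨fun w e => ?_, fun h => ih ⟨x, h⟩ hx⟩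
      have h1 : z x w = 0 := by
        have := hz.inv1 1 w x hx
        rw [one_mul] at this
        rw [this]
        exact z_one_left hχ hz hz1 w
      rw [h1, map_zero, Finsupp.zero_apply]
      exact dvd_zero _)
    intro δ hδ e
    -- the character
    have hdv : ∀ σ : (U ⊓ D : Subgroup (GK s)), (2 : ℤ_[2]) ^ m ∣ b.repr (f ⟨σ, σ.2.2⟩) e :=
      fun σ => (hUO σ σ.2.1).2 σ.2.2 e
    obtain ⟨φ', hφ', hφN, hφe⟩ := hext U hU.isOpen (sInf_le hU)
      (fun σ : (U ⊓ D : Subgroup (GK s)) => PadicInt.toZMod (dv m (b.repr (f ⟨σ, σ.2.2⟩) e))) (by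
        refine ⟨dv_lc ?_ hdv, ?_⟩
        · refine (hb e).comp (hf.comp ?_)
          exact Continuous.subtype_mk continuous_subtype_val _
        · intro σ τ
          have h1 := hfz ⟨σ, σ.2.2⟩ ⟨τ, τ.2.2⟩
          have h2 : f ⟨((σ * τ : (U ⊓ D : Subgroup (GK s))) : GK s), (σ * τ).2.2⟩ =
              f (⟨σ, σ.2.2⟩ * ⟨τ, τ.2.2⟩) := rfl
          have h3 : b.repr (f ⟨((σ * τ : (U ⊓ D : Subgroup (GK s))) : GK s), (σ * τ).2.2⟩) e =
              b.repr (f ⟨σ, σ.2.2⟩) e + χ σ * b.repr (f ⟨τ, τ.2.2⟩) e - b.repr (z σ τ) e := by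
            rw [h2]
            have h4 : f (⟨σ, σ.2.2⟩ * ⟨τ, τ.2.2⟩) = f ⟨σ, σ.2.2⟩ + χ σ • f ⟨τ, τ.2.2⟩ - z σ τ := by
              rw [h1]
              abel
            rw [h4]
            simp
          obtain ⟨t, ht⟩ := (hUO σ σ.2.1).1 τ e
          have h5 : (2 : ℤ_[2]) ^ m * dv m (b.repr (f ⟨((σ * τ : (U ⊓ D : Subgroup (GK s))) : GK s),
              (σ * τ).2.2⟩) e) = 2 ^ m * (dv m (b.repr (f ⟨σ, σ.2.2⟩) e) +
                χ σ * dv m (b.repr (f ⟨τ, τ.2.2⟩) e) - 2 * t) := by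
            rw [← dv_spec (hdv (σ * τ)), h3, ht]
            have e1 := dv_spec (hdv σ)
            have e2 := dv_spec (hdv τ)
            conv_lhs => rw [e1, e2]
            ring
          have h6 := mul_left_cancel₀ (two_pow_ne m) h5
          beta_reduce
          rw [h6, map_sub, map_add, map_mul, tz_chi hχ, one_mul,
            (tz_zero (2 * t)).2 (dvd_mul_right _ _), sub_zero])
    have hδU : (δ : GK s) ∈ U := (sInf_le hU : Nf s ≤ U) hδ
    have h7 := hφe δ hδU ⟨hδU, δ.2⟩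
    rw [hφN ⟨δ, hδU⟩ hδ] at h7
    have h8 := (tz_zero _).1 h7.symm
    obtain ⟨t, ht⟩ := h8
    have h9 := dv_spec (hdv ⟨δ, hδU, δ.2⟩)
    rw [ht] at h9
    refine ⟨t, ?_⟩
    rw [pow_succ, mul_assoc]
    exact h9

include hb hχ hz hz1 in
/-- step 3 -/
lemma step3 (hχN : ∀ σ, ∀ τ ∈ Nf s, χ (σ * τ) = χ σ) {D : Subgroup (GK s)}
    (hD : IsCompact (D : Set (GK s)))
    (hd : ∀ U : Subgroup (GK s), IsOpen (U : Set (GK s)) → Nf s ≤ U →
      ∀ g : GK s, ∃ δ ∈ D, δ⁻¹ * g ∈ U)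
    (hext : ∀ U : Subgroup (GK s), IsOpen (U : Set (GK s)) → Nf s ≤ U →
      ∀ φ ∈ HS (U ⊓ D : Subgroup (GK s)), ∃ φ' ∈ HS U,
        (∀ σ : U, (σ : GK s) ∈ Nf s → φ' σ = 0) ∧
        ∀ (σ : GK s) (h : σ ∈ U) (h' : σ ∈ U ⊓ D), φ' ⟨σ, h⟩ = φ ⟨σ, h'⟩)
    {f : D → A} (hf : Continuous f)
    (hfz : ∀ δ δ' : D, z δ δ' = f δ + χ δ • f δ' - f (δ * δ')) : z ∈ BA A χ := by
  have hDc : CompactSpace D := isCompact_iff_compactSpace.1 hD
  have h0 : ∀ δ : D, (δ : GK s) ∈ Nf s → f δ = 0 := by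
    intro δ hδ
    apply b.repr.injective
    rw [map_zero]
    ext e
    rw [Finsupp.zero_apply]
    exact eq_zero_of_dvd fun m => step1 b hb hχ hz hz1 hD hext hf hfz m δ hδ e
  have h1 : ∀ δ δ' : D, (δ : GK s)⁻¹ * δ' ∈ Nf s → f δ' = f δ := by
    intro δ δ' h
    have e1 := hfz δ (δ⁻¹ * δ')
    rw [h0 (δ⁻¹ * δ') h, smul_zero, add_zero, mul_inv_cancel_left] at e1
    have e2 : z (δ : GK s) ((δ⁻¹ * δ' : D) : GK s) = 0 := by
      have := hz.inv2 δ 1 ((δ⁻¹ * δ' : D) : GK s) h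
      rw [one_mul] at this
      rw [this]
      exact z_one_right hχ hz hz1 δ
    rw [e2] at e1
    exact (sub_eq_zero.1 e1.symm).symm
  choose dl hdl hdl' using surjD hD hd
  have h2 : ∀ (δ : D) (n : GK s), n ∈ Nf s → f ⟨dl (δ * n), hdl _⟩ = f δ := by
    intro δ n hn
    refine h1 δ ⟨dl (δ * n), hdl _⟩ ?_
    have e1 : (δ : GK s)⁻¹ * dl (δ * n) = n * ((dl (δ * n))⁻¹ * (δ * n))⁻¹ := by group
    show (δ : GK s)⁻¹ * dl (δ * n) ∈ Nf s
    rw [e1]
    exact mul_mem hn (inv_mem (hdl' _))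
  have hdec : ∀ g : GK s, g = dl g * ((dl g)⁻¹ * g) := fun g => by group
  refine ⟨fun g => f ⟨dl g, hdl g⟩, ?_, ?_⟩
  · rw [continuous_iff_isClosed]
    intro C hC
    have e1 : (fun g => f ⟨dl g, hdl g⟩) ⁻¹' C =
        ((fun δ : D => (δ : GK s)) '' (f ⁻¹' C)) * (Nf s : Set (GK s)) := by
      ext g
      constructor
      · intro hg
        exact Set.mem_mul.2 ⟨dl g, ⟨⟨dl g, hdl g⟩, hg, rfl⟩, (dl g)⁻¹ * g, hdl' g, (hdec g).symm⟩
      · intro hg
        obtain ⟨x, ⟨δ, hδ, rfl⟩, n, hn, rfl⟩ := Set.mem_mul.1 hg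
        show f ⟨dl (δ * n), hdl _⟩ ∈ C
        rw [h2 δ n hn]
        exact hδ
    rw [e1]
    have h3 : IsCompact ((fun δ : D => (δ : GK s)) '' (f ⁻¹' C)) :=
      (hC.preimage hf).isCompact.image continuous_subtype_val
    exact (h3.mul isClosed_Nf.isCompact).isClosed
  · intro x y
    set δ : D := ⟨dl x, hdl x⟩ with hδ
    set δ' : D := ⟨dl y, hdl y⟩ with hδ'
    obtain ⟨n, hn⟩ : ∃ n, n = (dl x)⁻¹ * x := ⟨_, rfl⟩
    obtain ⟨n', hn'⟩ : ∃ n', n' = (dl y)⁻¹ * y := ⟨_, rfl⟩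
    have hnN : n ∈ Nf s := by rw [hn]; exact hdl' x
    have hnN' : n' ∈ Nf s := by rw [hn']; exact hdl' y
    have ex : x = (δ : GK s) * n := by rw [hn]; exact hdec x
    have ey : y = (δ' : GK s) * n' := by rw [hn']; exact hdec y
    have e1 : z x y = z δ δ' := by
      conv_lhs => rw [ex, ey]
      rw [hz.inv1 _ _ n hnN, hz.inv2 _ _ n' hnN']
    have e2 : χ x = χ δ := by
      conv_lhs => rw [ex]
      exact hχN _ n hnN
    have e3 : f ⟨dl (x * y), hdl _⟩ = f (δ * δ') := by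
      have e4 : x * y = ((δ * δ' : D) : GK s) * (((δ' : GK s)⁻¹ * n * δ') * n') := by
        rw [Subgroup.coe_mul]
        conv_lhs => rw [ex, ey]
        group
      have e5 : ((δ' : GK s)⁻¹ * n * δ') * n' ∈ Nf s := by
        refine mul_mem ?_ hnN'
        have := (normal_Nf s).conj_mem n hnN (δ' : GK s)⁻¹
        rwa [inv_inv] at this
      have e6 := h2 (δ * δ') _ e5
      rw [← e4] at e6
      exact e6
    show z x y = f δ + χ x • f δ' - f ⟨dl (x * y), hdl _⟩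
    rw [e1, hfz, e2, e3]

end cocycle

/-- **Job LG.** -/
theorem stLG (hE : StE) (hE0 : StE0) (hE1 : StE1) (hG1 : StG1) : StLG := by
  intro s d hs hF ι₀ A _ _ _ _ _ r b hb hsm χ hχ z hz hz1 ⟨f, hf, hfz⟩
  obtain ⟨hch, hχN⟩ := hG1 s χ hχ
  obtain ⟨ρ, hρ, -, hρr⟩ := hE1 s d hs hF ι₀
  have hD : IsCompact (DDs (s := s) ι₀ : Set (GK s)) := by
    rw [← hρr, MonoidHom.coe_range]
    exact isCompact_range hρ
  exact step3 b hb hch hz hz1 hχN hD
    (fun U hU hN g => (hE0 s d hs hF).2.2.2.2 ι₀ U hU hN g) ((hE s d hs hF).2.1 ι₀) hf hfz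

/-- **Job EV.** -/
theorem stEv : StEv := by
  classical
  intro F _ h2 k C hC
  obtain ⟨W, hW⟩ := Submodule.exists_isCompl (LinearMap.ker C.mulVecLin)
  have hfr : Module.finrank F (LinearMap.ker C.mulVecLin) + Module.finrank F W = k := by
    rw [Submodule.finrank_add_eq_of_isCompl hW, Module.finrank_fin_fun]
  have hk : k - Module.finrank F (LinearMap.ker C.mulVecLin) = Module.finrank F W := by omega
  rw [hk]
  set m := Module.finrank F W with hm
  let w := Module.finBasis F W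
  have hskew : ∀ x y : Fin k → F, x ⬝ᵥ (C *ᵥ y) = -(y ⬝ᵥ (C *ᵥ x)) := by
    intro x y
    rw [Matrix.dotProduct_mulVec, ← Matrix.mulVec_transpose, hC, Matrix.neg_mulVec,
      neg_dotProduct, dotProduct_comm]
  let M : Matrix (Fin m) (Fin m) F :=
    Matrix.of fun i j => ((w i : W) : Fin k → F) ⬝ᵥ (C *ᵥ ((w j : W) : Fin k → F))
  have hMT : Mᵀ = -M := by
    ext i j
    show ((w j : W) : Fin k → F) ⬝ᵥ (C *ᵥ ((w i : W) : Fin k → F)) =
      -(((w i : W) : Fin k → F) ⬝ᵥ (C *ᵥ ((w j : W) : Fin k → F)))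
    exact hskew _ _
  have hdet : M.det ≠ 0 := by
    intro h0
    obtain ⟨v, hv, hMv⟩ := Matrix.exists_mulVec_eq_zero_iff.2 h0
    set x : W := ∑ j, v j • w j with hx
    have h1 : ∀ i, ((w i : W) : Fin k → F) ⬝ᵥ (C *ᵥ (x : Fin k → F)) = 0 := by
      intro i
      have h3 := congrFun hMv i
      rw [Pi.zero_apply] at h3
      rw [← h3, hx]
      simp only [AddSubmonoidClass.coe_finsetSum, Submodule.coe_smul]
      rw [Matrix.mulVec_sum, dotProduct_sum]
      show _ = ∑ j, M i j * v j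
      refine Finset.sum_congr rfl fun j _ => ?_
      rw [Matrix.mulVec_smul, dotProduct_smul, smul_eq_mul, mul_comm]
      rfl
    have h4 : ∀ y : W, (y : Fin k → F) ⬝ᵥ (C *ᵥ (x : Fin k → F)) = 0 := by
      intro y
      rw [← w.sum_repr y]
      simp only [AddSubmonoidClass.coe_finsetSum, Submodule.coe_smul]
      rw [sum_dotProduct]
      refine Finset.sum_eq_zero fun i _ => ?_
      rw [smul_dotProduct, h1, smul_zero]
    have h5 : ∀ y : Fin k → F, y ⬝ᵥ (C *ᵥ (x : Fin k → F)) = 0 := by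
      intro y
      have h6 : y ∈ LinearMap.ker C.mulVecLin ⊔ W := by
        rw [hW.sup_eq_top]
        trivial
      obtain ⟨u, hu, y', hy', rfl⟩ := Submodule.mem_sup.1 h6
      rw [add_dotProduct, h4 ⟨y', hy'⟩, add_zero, hskew]
      have h7 : C *ᵥ u = 0 := hu
      rw [h7, dotProduct_zero, neg_zero]
    have h8 : C *ᵥ (x : Fin k → F) = 0 := by
      ext i
      have := h5 (Pi.single i 1)
      rw [single_one_dotProduct] at this
      exact this
    have h9 : (x : Fin k → F) ∈ LinearMap.ker C.mulVecLin := h8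
    have h10 : (x : Fin k → F) = 0 := by
      have h11 : (x : Fin k → F) ∈ LinearMap.ker C.mulVecLin ⊓ W := ⟨h9, x.2⟩
      rw [hW.inf_eq_bot] at h11
      exact h11
    have h12 : x = 0 := Subtype.ext h10
    apply hv
    have h13 := (Fintype.linearIndependent_iff.1 w.linearIndependent) v (by rw [← hx]; exact h12)
    funext j
    exact h13 j
  by_contra hodd
  rw [Nat.not_even_iff_odd] at hodd
  have h1 : M.det = -M.det := by
    conv_lhs => rw [← Matrix.det_transpose, hMT, Matrix.det_neg, Fintype.card_fin, hodd.neg_one_pow]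
    ring
  have h3 : (2 : F) * M.det = 0 := by
    have : M.det + M.det = 0 := by
      nth_rewrite 1 [h1]
      ring
    rw [two_mul]
    exact this
  rcases mul_eq_zero.1 h3 with h4 | h4
  · exact h2 h4
  · exact hdet h4

end Pool.Agent.K7.H91.PS
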